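import Pool.Agent.helper82.LEQ.Final

/-!
# The Lefschetz-module form of Quillen's conjecture: elimination of components

`G` is a finite group, `p` a prime, `V` a normal `p'`-subgroup, and `L i` (`i ∈ ι`) are pairwise
commuting centreless subgroups of `G / V` of order divisible by `p`, permuted by `G / V` (for
instance components of `G / V`).  If their centraliser `C` satisfies the Lefschetz form of
Quillen's conjecture, and there are subsets `U i` of the `L i`, permuted like the `L i`, with
(A) the sum over `U i` of the reduced Euler characteristics for `L i` is not zero,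
(B) an element of order dividing `p` which normalises every `L i` and commutes with an element of
every `U i` acts on every `L i` as an inner automorphism,
then `G` satisfies the Lefschetz form of Quillen's conjecture.

The proof is in the modules `Pool.Agent.*.LEQ.*`; all of its steps are stated and explained in
`Pool.Agent.helper82.LEQ.Spec`.
-/

set_option autoImplicit false

namespace Pool.Agent.Results.MP_e82547_al.EliminatingComponents

/-- The reduced Euler characteristic of the poset of the nontrivial elementary abelian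
`p`-subgroups of `G` which are normalised by `g` (the sum over chains of the frozen statement
S03407; the empty chain contributes `-1`). -/
noncomputable def Lef (G : Type) [Group G] (p : ℕ) (g : G) : ℤ :=
  ∑ᶠ (s : Finset (Subgroup G))
    (_ : IsChain (· ≤ ·) (s : Set (Subgroup G)) ∧
      ∀ E ∈ s, E ≠ ⊥ ∧ (∀ x ∈ E, ∀ y ∈ E, x * y = y * x) ∧
        (∀ x ∈ E, x ^ p = 1) ∧ (∀ x : G, x ∈ E ↔ g * x * g⁻¹ ∈ E)),
    ((-1 : ℤ) ^ (s.card + 1))

/-- Elimination of components in the Lefschetz form of Quillen's conjecture. -/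
theorem result
    (G : Type) [Group G] [Finite G] (p : ℕ) (hp : p.Prime)
    -- a normal `p'`-subgroup
    (V : Subgroup G) [V.Normal] (hV : ¬ p ∣ Nat.card V)
    -- pairwise commuting centreless subgroups of order divisible by `p`, permuted by `G / V`
    (ι : Type) [Finite ι] (L : ι → Subgroup (G ⧸ V))
    (hperm : ∀ (g : G ⧸ V) (i : ι), ∃ j, ∀ x : G ⧸ V, x ∈ L i ↔ g * x * g⁻¹ ∈ L j)
    (hcomm : ∀ i j, i ≠ j → ∀ x ∈ L i, ∀ y ∈ L j, x * y = y * x)
    (hcent : ∀ i, ∀ x ∈ L i, (∀ y ∈ L i, x * y = y * x) → x = 1)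
    (hdvd : ∀ i, p ∣ Nat.card (L i))
    -- subsets of them, permuted in the same way
    (U : ι → Set (G ⧸ V)) (hU : ∀ i, ∀ u ∈ U i, u ∈ L i)
    (hUperm : ∀ (g : G ⧸ V) (i j : ι), (∀ x : G ⧸ V, x ∈ L i ↔ g * x * g⁻¹ ∈ L j) →
      ∀ u ∈ U i, g * u * g⁻¹ ∈ U j)
    -- (A)
    (hA : ∀ i, ∑ᶠ (u : L i) (_ : (u : G ⧸ V) ∈ U i), Lef (L i) p u ≠ 0)
    -- (B)
    (hB : ∀ x : G ⧸ V, x ^ p = 1 → (∀ i, ∀ y : G ⧸ V, y ∈ L i ↔ x * y * x⁻¹ ∈ L i) →
      (∀ i, ∃ u ∈ U i, x * u = u * x) →
      ∀ i, ∃ a ∈ L i, ∀ y ∈ L i, x * y * x⁻¹ = a * y * a⁻¹)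
    -- the centraliser of all the `L i` satisfies the Lefschetz form of Quillen's conjecture
    (hC : ∃ c : Subgroup.centralizer (⋃ i, (L i : Set (G ⧸ V))),
      Lef (Subgroup.centralizer (⋃ i, (L i : Set (G ⧸ V)))) p c ≠ 0) :
    ∃ g : G, Lef G p g ≠ 0 := by
  have heq : Subgroup.centralizer (⋃ i, (L i : Set (G ⧸ V))) = LEQ.Cc L := by
    ext g
    rw [Subgroup.mem_centralizer_iff]
    constructor
    · intro h i z hz
      exact (h z (Set.mem_iUnion.2 ⟨i, hz⟩)).symm
    · intro h z hz
      obtain ⟨i, hi⟩ := Set.mem_iUnion.1 hz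
      exact (h i z hi).symm
  rw [heq] at hC
  exact LEQ.final G p hp V hV ι L ⟨hperm, hcomm, hcent, hdvd⟩ U ⟨hU, hUperm⟩ hA hB hC

end Pool.Agent.Results.MP_e82547_al.EliminatingComponents
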