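import Pool.Agent.helper95.QL.Main4

/-!
# The Lefschetz-module form of Quillen's conjecture: groups with a nilpotent normal subgroup
# modulo which a Sylow `p`-subgroup is normal (`p` odd), and a more general criterion
-/

namespace Pool.Agent.Results.MP_e82547_al.NilpotentNormal

/-- `p` odd, `G` finite without nontrivial normal `p`-subgroups, `N` a nilpotent normal subgroup.
(1) If `N P` is normal in `G` for a Sylow `p`-subgroup `P` of `G`, then some `g` in `N` has
nonzero reduced Euler characteristic of the poset of `g`-stable nontrivial elementary abelian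
`p`-subgroups.
(2) The same holds if `(C ⊓ N) P` is normal in `C` for a Sylow `p`-subgroup `P` of the centraliser
`C` of the Sylow `q`-subgroup of `N`, for a prime `q` such that `q = 2`, or `|N|` is odd, or `p + 1`
is not a power of `2`.
(3) In particular the same holds if `G / N` is nilpotent. -/
theorem result :
    (∀ (G : Type) [Group G] [Finite G] (p : ℕ), Nat.Prime p → p ≠ 2 →
      (∀ P : Subgroup G, P.Normal → IsPGroup p P → P = ⊥) →
      ∀ N : Subgroup G, N.Normal → Group.IsNilpotent N →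
      ∀ P : Sylow p G, (N ⊔ (P : Subgroup G)).Normal →
      ∃ g ∈ N,
        (∑ᶠ (s : Finset (Subgroup G))
            (_ : IsChain (· ≤ ·) (s : Set (Subgroup G)) ∧
              ∀ E ∈ s, E ≠ ⊥ ∧ (∀ x ∈ E, ∀ y ∈ E, x * y = y * x) ∧
                (∀ x ∈ E, x ^ p = 1) ∧ (∀ x : G, x ∈ E ↔ g * x * g⁻¹ ∈ E)),
            ((-1 : ℤ) ^ (s.card + 1))) ≠ 0) ∧
    (∀ (G : Type) [Group G] [Finite G] (p : ℕ), Nat.Prime p → p ≠ 2 →
      (∀ P : Subgroup G, P.Normal → IsPGroup p P → P = ⊥) →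
      ∀ N : Subgroup G, N.Normal → Group.IsNilpotent N →
      ∀ q : ℕ, Nat.Prime q → (q = 2 ∨ Odd (Nat.card N) ∨ ∀ a : ℕ, 2 ^ a ≠ p + 1) →
      ∀ (S : Sylow q N) (C : Subgroup G),
      C = Subgroup.centralizer (((S : Subgroup N).map N.subtype : Subgroup G) : Set G) →
      ∀ P : Sylow p C, (N.subgroupOf C ⊔ (P : Subgroup C)).Normal →
      ∃ g ∈ N,
        (∑ᶠ (s : Finset (Subgroup G))
            (_ : IsChain (· ≤ ·) (s : Set (Subgroup G)) ∧
              ∀ E ∈ s, E ≠ ⊥ ∧ (∀ x ∈ E, ∀ y ∈ E, x * y = y * x) ∧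
                (∀ x ∈ E, x ^ p = 1) ∧ (∀ x : G, x ∈ E ↔ g * x * g⁻¹ ∈ E)),
            ((-1 : ℤ) ^ (s.card + 1))) ≠ 0) ∧
    (∀ (G : Type) [Group G] [Finite G] (p : ℕ), Nat.Prime p → p ≠ 2 →
      (∀ P : Subgroup G, P.Normal → IsPGroup p P → P = ⊥) →
      ∀ (N : Subgroup G) [N.Normal], Group.IsNilpotent N → Group.IsNilpotent (G ⧸ N) →
      ∃ g ∈ N,
        (∑ᶠ (s : Finset (Subgroup G))
            (_ : IsChain (· ≤ ·) (s : Set (Subgroup G)) ∧
              ∀ E ∈ s, E ≠ ⊥ ∧ (∀ x ∈ E, ∀ y ∈ E, x * y = y * x) ∧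
                (∀ x ∈ E, x ^ p = 1) ∧ (∀ x : G, x ∈ E ↔ g * x * g⁻¹ ∈ E)),
            ((-1 : ℤ) ^ (s.card + 1))) ≠ 0) := by
  refine ⟨?_, ?_, ?_⟩
  · intro G _ _ p hp hp2 hO N hN hNil P hP
    exact helper95.QL.main_closed hp hp2 hO N P hP
  · intro G _ _ p hp hp2 hO N hN hNil q hq hqp S C hC P hP
    exact helper95.QL.main_centralizer hp hp2 hO N hq hqp S C hC P hP
  · intro G _ _ p hp hp2 hO N hN hNil hQ
    have : Fact p.Prime := ⟨hp⟩
    obtain ⟨P⟩ : Nonempty (Sylow p G) := inferInstance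
    exact helper95.QL.main_closed hp hp2 hO N P (helper95.QL.normal_of_nilpotent_quotient N P)

end Pool.Agent.Results.MP_e82547_al.NilpotentNormal
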