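import Pool.Agent.helper70.RK.Asm

/-!
# The Lefschetz-module form of Quillen's conjecture: all finite groups of p-rank at most 3

Let `G` be a finite group without nontrivial normal `p`-subgroups and with all elementary abelian
`p`-subgroups of order at most `p ^ 3`. Then `Lef G p g ≠ 0` for some `g`, provided that, if there
is an elementary abelian subgroup of order `p ^ 3`:
(a) almost simple quotients of `G` by normal `p'`-subgroups, with socle of order divisible by `p`,
have this property (the theorem of Aschbacher and Kleidman);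
(b) every nonabelian simple subgroup of a normal `p'`-subgroup of a quotient of `G` by a normal
`p'`-subgroup has an element which is fixed by no automorphism of order `p` (a consequence of the
classification of finite simple groups).
For groups of `p`-rank at most 2, and for `p`-solvable groups with solvable `O_p'(G)` (in particular
for all solvable groups) there is no hypothesis.

All steps are stated and explained in `Pool.Agent.helper70.RK.Spec`.
-/

set_option autoImplicit false

namespace Pool.Agent.Results.MP_e82547_al.RankThree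

/-- The reduced Euler characteristic of the poset of the nontrivial elementary abelian
`p`-subgroups of `G` which are normalised by `g` (the sum over chains of the frozen statement
S03407; the empty chain contributes `-1`). -/
noncomputable def Lef (G : Type) [Group G] (p : ℕ) (g : G) : ℤ :=
  ∑ᶠ (s : Finset (Subgroup G))
    (_ : IsChain (· ≤ ·) (s : Set (Subgroup G)) ∧
      ∀ E ∈ s, E ≠ ⊥ ∧ (∀ x ∈ E, ∀ y ∈ E, x * y = y * x) ∧
        (∀ x ∈ E, x ^ p = 1) ∧ (∀ x : G, x ∈ E ↔ g * x * g⁻¹ ∈ E)),
    ((-1 : ℤ) ^ (s.card + 1))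

/-- `S` is a nonabelian simple group. -/
def NonabelianSimple {G : Type} [Group G] (S : Subgroup G) : Prop :=
  IsSimpleGroup S ∧ ∃ x ∈ S, ∃ y ∈ S, x * y ≠ y * x

/-- The `p`-rank of `G` is at least 3: there is an elementary abelian subgroup of order `p ^ 3`. -/
def HasRankThree (G : Type) [Group G] (p : ℕ) : Prop :=
  ∃ E : Subgroup G, (∀ x ∈ E, ∀ y ∈ E, x * y = y * x) ∧ (∀ x ∈ E, x ^ p = 1) ∧ Nat.card E = p ^ 3

/-- The Lefschetz form of Quillen's conjecture for finite groups of `p`-rank at most 3. -/
theorem result
    (G : Type) [Group G] [Finite G] (p : ℕ) (hp : p.Prime)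
    -- no nontrivial normal `p`-subgroup
    (hO : ∀ P : Subgroup G, P.Normal → IsPGroup p P → P = ⊥)
    -- the `p`-rank is at most 3
    (hrank : ∀ E : Subgroup G, (∀ x ∈ E, ∀ y ∈ E, x * y = y * x) → (∀ x ∈ E, x ^ p = 1) →
      Nat.card E ≤ p ^ 3)
    -- (a), only if the `p`-rank is 3
    (ha : HasRankThree G p →
      ∀ (H : Type) [Group H] [Finite H] (φ : G →* H), Function.Surjective φ →
      ¬ p ∣ Nat.card φ.ker →
      ∀ S : Subgroup H, S.Normal → NonabelianSimple S → p ∣ Nat.card S →
      Subgroup.centralizer (S : Set H) = ⊥ → ∃ h : H, Lef H p h ≠ 0)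
    -- (b), only if the `p`-rank is 3
    (hb : HasRankThree G p →
      ∀ (H : Type) [Group H] [Finite H] (φ : G →* H), Function.Surjective φ →
      ¬ p ∣ Nat.card φ.ker →
      ∀ V L : Subgroup H, V.Normal → ¬ p ∣ Nat.card V → L ≤ V → NonabelianSimple L →
      ∃ g : L, ∀ α : MulAut L, α ^ p = 1 → α g = g → α = 1) :
    ∃ g : G, Lef G p g ≠ 0 := by
  have hR : RK.Rk p 3 G := fun E hE => hrank E hE.1 hE.2
  by_cases h2 : RK.Rk p 2 G
  · exact ⟨1, RK.a_R2 G p hp h2 hO⟩
  · have h3 : HasRankThree G p := by
      unfold RK.Rk at h2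
      push Not at h2
      obtain ⟨E, hE, hcard⟩ := h2
      refine ⟨E, hE.1, hE.2, ?_⟩
      have := Fact.mk hp
      obtain ⟨n, hn⟩ := IsPGroup.iff_card.1 (RK.TRR_pg hE)
      have h4 := hR E hE
      rw [hn] at hcard h4 ⊢
      have h5 : 2 < n := (Nat.pow_lt_pow_iff_right hp.one_lt).1 hcard
      have h6 : n ≤ 3 := (Nat.pow_le_pow_iff_right hp.one_lt).1 h4
      have h7 : n = 3 := by omega
      rw [h7]
    exact RK.a_RES G p hp hO hR (ha h3) (hb h3)

end Pool.Agent.Results.MP_e82547_al.RankThree
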