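import Pool.Agent.helper32.QS.Final

/-!
# The Lefschetz-module form of Quillen's conjecture for all finite solvable groups and all
# primes `p ≥ 5`

Let `G` be a finite solvable group and `p ≥ 5` a prime such that `G` has no nontrivial normal
`p`-subgroup. Then the reduced Lefschetz module of the poset of nontrivial elementary abelian
`p`-subgroups of `G` is nonzero: there is `g ∈ G` for which the reduced Euler characteristic of the
poset of the `g`-stable ones is nonzero.

The proof is in the modules `Pool.Agent.*.QS.*`; all of its steps are stated and explained in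
`Pool.Agent.helper32.QS.Spec`.
-/

set_option autoImplicit false

namespace Pool.Agent.Results.MP_e82547_al.SolvableGroups

/-- `G` finite solvable, `p ≥ 5` prime, no nontrivial normal `p`-subgroup: for some `g` in `G` the
reduced Euler characteristic of the poset of `g`-stable nontrivial elementary abelian `p`-subgroups
of `G` is nonzero. -/
theorem result :
    ∀ (G : Type) [Group G] [Finite G] (p : ℕ), Nat.Prime p → 5 ≤ p → Group.IsSolvable G →
      (∀ P : Subgroup G, P.Normal → IsPGroup p P → P = ⊥) →
      ∃ g : G,
        (∑ᶠ (s : Finset (Subgroup G))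
            (_ : IsChain (· ≤ ·) (s : Set (Subgroup G)) ∧
              ∀ E ∈ s, E ≠ ⊥ ∧ (∀ x ∈ E, ∀ y ∈ E, x * y = y * x) ∧
                (∀ x ∈ E, x ^ p = 1) ∧ (∀ x : G, x ∈ E ↔ g * x * g⁻¹ ∈ E)),
            ((-1 : ℤ) ^ (s.card + 1))) ≠ 0 :=
  QS.fMAIN

end Pool.Agent.Results.MP_e82547_al.SolvableGroups
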